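import Pool.Agent.W707.HM.Stm

/-! Project HM: monotonicity of `ν`. -/

set_option autoImplicit false

namespace Pool.Agent.W143.HM.Mon

open MeasureTheory Set Filter Topology Pool.Agent.W707.HM

/-- the derivative of `Γ` -/
theorem gm_deriv (p : ℝ) (fs tau : ℝ → ℝ) (m : ℝ) (h : HasDerivAt fs (tau m) m) :
    HasDerivAt (Gm p fs) (p * tau m - (p - 2)) m := by
  have h1 : HasDerivAt (fun m => p * fs m - (p - 2) * m) (p * tau m - (p - 2) * 1) m :=
    (h.const_mul p).sub ((hasDerivAt_id m).const_mul (p - 2))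
  rw [mul_one] at h1
  exact h1

/-- the pointwise estimate -/
theorem est (p : ℝ) (fs tau : ℝ → ℝ) (m m' R : ℝ) (h1 : tau m < 1) (h2 : tau m' < 1)
    (h3 : 0 < Gm p fs m) (hm : m < m')
    (hR : tau m' - tau m ≤ R * (m' - m)) :
    Dm p fs tau m' - Dm p fs tau m ≤
      (slope (Gm p fs) m m' + Dm p fs tau m * R) / (1 - tau m') * (m' - m) := by
  have h1' : 0 < 1 - tau m := by linarith
  have h2' : 0 < 1 - tau m' := by linarith
  have hk : 0 < m' - m := by linarith
  have hD : 0 < Dm p fs tau m := div_pos h3 h1'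
  have hG : Gm p fs m = Dm p fs tau m * (1 - tau m) := by
    unfold Dm; field_simp
  have hG' : Gm p fs m' = Dm p fs tau m' * (1 - tau m') := by
    unfold Dm; field_simp
  have hs : slope (Gm p fs) m m' * (m' - m) = Gm p fs m' - Gm p fs m := by
    rw [slope_def_field]; field_simp
  rw [div_mul_eq_mul_div, le_div_iff₀ h2']
  have e : (slope (Gm p fs) m m' + Dm p fs tau m * R) * (m' - m) =
      Gm p fs m' - Gm p fs m + Dm p fs tau m * (R * (m' - m)) := by
    rw [add_mul, hs]; ring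
  rw [e]
  have h5 := mul_le_mul_of_nonneg_left hR hD.le
  nlinarith [h5, hG, hG']

theorem main : S_MON := by
  intro p fs tau a b mu hp hab hm hmu1 hmu
  -- facts along the curve
  have hD : ∀ s, 1 ≤ s → 0 < Dm p fs tau (mu s) := by
    intro s hs
    obtain ⟨h1, _, h2, _⟩ := hm _ (hmu s hs).1
    exact div_pos h1 (by linarith)
  have hcm : ∀ s, 1 ≤ s → ContinuousWithinAt mu (Ici 1) s := fun s hs => (hmu s hs).2.continuousWithinAt
  have hct : ∀ s, 1 ≤ s → ContinuousWithinAt (fun s => tau (mu s)) (Ici 1) s := by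
    intro s hs
    exact ContinuousAt.comp_continuousWithinAt (hm _ (hmu s hs).1).2.2.2.1 (hcm s hs)
  have hcf : ∀ s, 1 ≤ s → ContinuousWithinAt (fun s => fs (mu s)) (Ici 1) s := by
    intro s hs
    exact ContinuousAt.comp_continuousWithinAt (hm _ (hmu s hs).1).2.2.2.2.1.continuousAt (hcm s hs)
  let F : ℝ → ℝ := fun s => s ^ (p - 2) * ((p - 1) * mu s + Dm p fs tau (mu s))
  have hcF : ∀ s, 1 ≤ s → ContinuousWithinAt F (Ici 1) s := by
    intro s hs
    obtain ⟨_, _, h2, _⟩ := hm _ (hmu s hs).1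
    have hs0 : s ≠ 0 := by linarith
    have c1 : ContinuousWithinAt (fun s : ℝ => s ^ (p - 2)) (Ici 1) s :=
      (Real.continuousAt_rpow_const s (p - 2) (Or.inl hs0)).continuousWithinAt
    have c2 : ContinuousWithinAt (fun s => Dm p fs tau (mu s)) (Ici 1) s := by
      unfold Dm Gm
      refine ContinuousWithinAt.div ?_ ?_ ?_
      · exact (continuousWithinAt_const.mul (hcf s hs)).sub (continuousWithinAt_const.mul (hcm s hs))
      · exact continuousWithinAt_const.sub (hct s hs)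
      · have : 0 < 1 - tau (mu s) := by linarith
        exact this.ne'
    exact c1.mul ((continuousWithinAt_const.mul (hcm s hs)).add c2)
  -- the bound for the slopes
  have key : ∀ s, 1 ≤ s → ∀ r : ℝ, 0 < r → ∀ᶠ z in 𝓝[>] s, slope F s z < r := by
    intro s hs r hr
    have hs0 : 0 < s := by linarith
    obtain ⟨hG0, _, hτ1, hτc, hfs, hLE⟩ := hm _ (hmu s hs).1
    obtain ⟨D0, hD0⟩ : ∃ D0, D0 = Dm p fs tau (mu s) := ⟨_, rfl⟩
    have hDp : 0 < D0 := hD0 ▸ hD s hs
    have h1τ : 0 < 1 - tau (mu s) := by linarith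
    -- slopes of mu
    have tmu : Tendsto (slope mu s) (𝓝[>] s) (𝓝 (D0 / s)) := by
      have h1 : HasDerivWithinAt mu (D0 / s) (Ioi s) s := by
        rw [hD0]
        exact (hmu s hs).2.mono (fun z (hz : s < z) => by
          show (1 : ℝ) ≤ z
          linarith)
      exact (hasDerivWithinAt_iff_tendsto_slope' (by simp)).1 h1
    have hgt : ∀ᶠ z in 𝓝[>] s, mu s < mu z := by
      have h1 : ∀ᶠ z in 𝓝[>] s, 0 < slope mu s z := tmu.eventually_const_lt (by positivity)
      filter_upwards [h1, self_mem_nhdsWithin] with z hz1 hz2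
      have hz2' : s < z := hz2
      rw [slope_def_field, div_pos_iff_of_pos_right (by linarith)] at hz1
      linarith
    have tmu0 : Tendsto mu (𝓝[>] s) (𝓝 (mu s)) :=
      ((hcm s hs).mono (fun z (hz : s < z) => by
          show (1 : ℝ) ≤ z
          linarith) : ContinuousWithinAt mu (Ioi s) s)
    have tmu1 : Tendsto mu (𝓝[>] s) (𝓝[>] (mu s)) :=
      tendsto_nhdsWithin_iff.2 ⟨tmu0, hgt⟩
    have tτ : Tendsto (fun z => tau (mu z)) (𝓝[>] s) (𝓝 (tau (mu s))) := hτc.tendsto.comp tmu0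
    have tG : Tendsto (fun z => slope (Gm p fs) (mu s) (mu z)) (𝓝[>] s)
        (𝓝 (p * tau (mu s) - (p - 2))) := by
      have h1 := (gm_deriv p fs tau (mu s) hfs).hasDerivWithinAt (s := Ioi (mu s))
      exact ((hasDerivWithinAt_iff_tendsto_slope' (by simp)).1 h1).comp tmu1
    have tpow : Tendsto (fun z : ℝ => z ^ (p - 2)) (𝓝[>] s) (𝓝 (s ^ (p - 2))) :=
      (Real.continuousAt_rpow_const s (p - 2) (Or.inl hs0.ne')).continuousWithinAt
    have tspow : Tendsto (slope (fun z : ℝ => z ^ (p - 2)) s) (𝓝[>] s)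
        (𝓝 ((p - 2) * s ^ (p - 2 - 1))) := by
      have h1 := (Real.hasDerivAt_rpow_const (x := s) (p := p - 2) (Or.inl hs0.ne')).hasDerivWithinAt
        (s := Ioi s)
      exact (hasDerivWithinAt_iff_tendsto_slope' (by simp)).1 h1
    -- choice of R
    obtain ⟨R0, hR0⟩ : ∃ R0, R0 = Qm p fs tau (mu s) / D0 ^ 2 := ⟨_, rfl⟩
    obtain ⟨c, hc⟩ : ∃ c, c = s ^ (p - 2 - 1) * (D0 ^ 2 / (1 - tau (mu s))) := ⟨_, rfl⟩
    have hcp : 0 < c := by rw [hc]; positivity
    obtain ⟨R, hR⟩ : ∃ R, R = R0 + r / (2 * c) := ⟨_, rfl⟩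
    have hRR : R0 < R := by rw [hR]; have : 0 < r / (2 * c) := by positivity
                            linarith
    have hLER := hLE R (by rw [← hD0, ← hR0]; exact hRR)
    have eLE : ∀ᶠ z in 𝓝[>] s, tau (mu z) - tau (mu s) ≤ R * (mu z - mu s) := tmu1.eventually hLER
    -- the upper bound
    let U : ℝ → ℝ := fun z => z ^ (p - 2) * ((p - 1) * slope mu s z +
      (slope (Gm p fs) (mu s) (mu z) + D0 * R) / (1 - tau (mu z)) * slope mu s z) +
      slope (fun z : ℝ => z ^ (p - 2)) s z * ((p - 1) * mu s + D0)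
    have tU : Tendsto U (𝓝[>] s) (𝓝 (s ^ (p - 2) * ((p - 1) * (D0 / s) +
        (p * tau (mu s) - (p - 2) + D0 * R) / (1 - tau (mu s)) * (D0 / s)) +
        (p - 2) * s ^ (p - 2 - 1) * ((p - 1) * mu s + D0))) := by
      refine Tendsto.add (tpow.mul ((tmu.const_mul _).add (Tendsto.mul (Tendsto.div
        (tG.add_const _) (tτ.const_sub 1) h1τ.ne') tmu))) (tspow.mul_const _)
    have hval : s ^ (p - 2) * ((p - 1) * (D0 / s) +
        (p * tau (mu s) - (p - 2) + D0 * R) / (1 - tau (mu s)) * (D0 / s)) +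
        (p - 2) * s ^ (p - 2 - 1) * ((p - 1) * mu s + D0) = r / 2 := by
      have e1 : s ^ (p - 2) = s ^ (p - 2 - 1) * s := by
        rw [← Real.rpow_add_one hs0.ne']; congr 1; ring
      have eR : D0 ^ 2 * R = Qm p fs tau (mu s) + D0 ^ 2 * (r / (2 * c)) := by
        rw [hR, hR0]; field_simp
      have eQ : Qm p fs tau (mu s) = -((p - 1) * (p - 2) * mu s * (1 - tau (mu s))) -
          D0 * ((p - 1) - (p - 3) * tau (mu s)) := by rw [hD0]; rfl
      have e2 : s ^ (p - 2 - 1) * s * ((p - 1) * (D0 / s) +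
        (p * tau (mu s) - (p - 2) + D0 * R) / (1 - tau (mu s)) * (D0 / s)) +
        (p - 2) * s ^ (p - 2 - 1) * ((p - 1) * mu s + D0) =
        s ^ (p - 2 - 1) / (1 - tau (mu s)) * ((p - 1) * D0 * (1 - tau (mu s)) +
          (p * tau (mu s) - (p - 2)) * D0 + D0 ^ 2 * R +
          (p - 2) * ((p - 1) * mu s + D0) * (1 - tau (mu s))) := by
        field_simp
        ring
      rw [e1, e2, eR, eQ]
      have e3 : (p - 1) * D0 * (1 - tau (mu s)) + (p * tau (mu s) - (p - 2)) * D0 +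
          (-((p - 1) * (p - 2) * mu s * (1 - tau (mu s))) - D0 * ((p - 1) - (p - 3) * tau (mu s)) +
          D0 ^ 2 * (r / (2 * c))) + (p - 2) * ((p - 1) * mu s + D0) * (1 - tau (mu s)) =
          D0 ^ 2 * (r / (2 * c)) := by ring
      rw [e3]
      have e4 : s ^ (p - 2 - 1) / (1 - tau (mu s)) * (D0 ^ 2 * (r / (2 * c))) = c * (r / (2 * c)) := by
        rw [hc]; ring
      rw [e4]
      field_simp
    rw [hval] at tU
    have eU : ∀ᶠ z in 𝓝[>] s, U z < r := tU.eventually_lt_const (by linarith)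
    filter_upwards [eU, eLE, hgt, self_mem_nhdsWithin] with z hz1 hz2 hz3 hz4
    refine lt_of_le_of_lt ?_ hz1
    have hz4' : s < z := hz4
    have hz : 1 ≤ z := by linarith
    have hzp : (0 : ℝ) < z ^ (p - 2) := Real.rpow_pos_of_pos (by linarith) _
    have hτz : tau (mu z) < 1 := (hm _ (hmu z hz).1).2.2.1
    have hE := est p fs tau (mu s) (mu z) R hτ1 hτz hG0 hz3 hz2
    rw [← hD0] at hE
    have hh : 0 < z - s := by linarith
    obtain ⟨S1, hS1⟩ : ∃ S1, S1 = slope mu s z := ⟨_, rfl⟩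
    have hS1' : S1 * (z - s) = mu z - mu s := by
      rw [hS1, slope_def_field]; field_simp
    obtain ⟨S2, hS2⟩ : ∃ S2, S2 = slope (fun z : ℝ => z ^ (p - 2)) s z := ⟨_, rfl⟩
    have hS2' : S2 * (z - s) = z ^ (p - 2) - s ^ (p - 2) := by
      rw [hS2, slope_def_field]; field_simp
    obtain ⟨X, hX⟩ : ∃ X, X = (slope (Gm p fs) (mu s) (mu z) + D0 * R) / (1 - tau (mu z)) := ⟨_, rfl⟩
    rw [← hX] at hE
    show slope F s z ≤ z ^ (p - 2) * ((p - 1) * slope mu s z +
      (slope (Gm p fs) (mu s) (mu z) + D0 * R) / (1 - tau (mu z)) * slope mu s z) +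
      slope (fun z : ℝ => z ^ (p - 2)) s z * ((p - 1) * mu s + D0)
    rw [← hX, ← hS1, ← hS2, slope_def_field, div_le_iff₀ hh]
    show z ^ (p - 2) * ((p - 1) * mu z + Dm p fs tau (mu z)) -
      s ^ (p - 2) * ((p - 1) * mu s + Dm p fs tau (mu s)) ≤ _
    rw [← hD0]
    have e5 : (z ^ (p - 2) * ((p - 1) * S1 + X * S1) + S2 * ((p - 1) * mu s + D0)) * (z - s) =
        z ^ (p - 2) * ((p - 1) * (mu z - mu s) + X * (mu z - mu s)) +
        (z ^ (p - 2) - s ^ (p - 2)) * ((p - 1) * mu s + D0) := by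
      rw [← hS1', ← hS2']; ring
    rw [e5]
    have h6 := mul_le_mul_of_nonneg_left hE hzp.le
    linarith [h6]
  -- conclusion
  intro x hx y hy hxy
  have hx' : (1 : ℝ) ≤ x := hx
  have hFF : F y ≤ F x := by
    have h1 := image_le_of_liminf_slope_right_le_deriv_boundary (f := F) (a := x) (b := y)
      (fun z hz => (hcF z (hx'.trans hz.1)).mono (fun w hw => hx'.trans hw.1))
      (B := fun _ => F x) (B' := fun _ => 0) le_rfl continuousOn_const
      (fun z _ => hasDerivWithinAt_const _ _ _)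
      (fun z hz r hr => (key z (hx'.trans hz.1) r hr).frequently)
    exact h1 ⟨hxy, le_rfl⟩
  show -(F x) ≤ -(F y)
  linarith

end Pool.Agent.W143.HM.Mon
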